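import Pool.Agent.Helper894.Three.Data

set_option autoImplicit false

namespace Pool.Agent.Helper894.Three

theorem blks2 (i : ℕ) (hi : i < 22) : allUpto (chk vt lt) 11 (2048 * (i + 44)) = true := by
  interval_cases i <;> decide +kernel

end Pool.Agent.Helper894.Three
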