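import Mathlib

set_option autoImplicit false

namespace Pool.Agent.Helper894.Three

/-- binary trees of numerals -/
inductive Tr : Type
  | lf : ℕ → Tr
  | nd : Tr → Tr → Tr

/-- look up by binary digits, least significant digit first -/
noncomputable def Tr.get (T : Tr) : ℕ → ℕ :=
  Tr.rec (motive := fun _ => ℕ → ℕ) (fun n _ => n)
    (fun _ _ gl gr i => Bool.rec (gr (Nat.div i 2)) (gl (Nat.div i 2)) (Nat.beq (Nat.mod i 2) 0)) T

/-- three packed entries of 16 bits, `2 ^ 9` triples in each leaf -/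
noncomputable def grp (T : Tr) (q : ℕ) : ℕ :=
  Nat.mod (Nat.shiftRight (T.get (Nat.div q 512)) (Nat.mul 48 (Nat.mod q 512))) 281474976710656

/-- a field of 16 bits -/
noncomputable def fld (x j : ℕ) : ℕ := Nat.mod (Nat.shiftRight x (Nat.mul 16 j)) 65536

/-- the entry `t` of the packed table whose triples are `q, q + n, q + 2 n` -/
noncomputable def ent (T : Tr) (n t : ℕ) : ℕ := fld (grp T (t % n)) (t / n)

/-- the second term of the certificate inequality -/
def term (L : ℕ → ℕ) (b0 b1 u r : ℕ) : ℕ :=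
  if r = 0 then b1 * L ((4 * u) % 177147) else
    if r = 1 then 0 else b0 * L ((2 * u + 1) % 177147)

/-- one comparison -/
noncomputable def cmp (g mq h c K d b j j' : ℕ) : Bool :=
  Bool.rec false
    (Bool.rec false
      (Nat.ble (Nat.mul 1000000 (fld g j))
        (Nat.add (Nat.mul 302679 (fld h (Nat.mod (Nat.add c j) 3)))
          (Nat.mul b (fld K (Nat.mod (Nat.add d j') 3)))))
      (Nat.ble mq (fld g j)))
    (Nat.ble 1 (fld g j))

/-- three comparisons -/
noncomputable def cmp3 (g mq h c K d b e : ℕ) : Bool :=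
  Bool.rec false (Bool.rec false (cmp g mq h c K d b 2 (Nat.mul 2 e)) (cmp g mq h c K d b 1 e))
    (cmp g mq h c K d b 0 0)

/-- the check at one index -/
noncomputable def chk (V M : Tr) (q : ℕ) : Bool :=
  Bool.rec
    (Nat.rec
      (cmp3 (grp V q) (fld (grp M (Nat.mod q 59049)) (Nat.div q 59049))
        (grp V (Nat.mod (Nat.add (Nat.mul 4 q) 2) 177147)) (Nat.div (Nat.add (Nat.mul 4 q) 2) 177147)
        (grp M (Nat.mod (Nat.mul 4 (Nat.div q 3)) 59049)) (Nat.div (Nat.mul 4 (Nat.div q 3)) 59049)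
        780356 1)
      (fun r _ => Nat.rec
        (cmp3 (grp V q) (fld (grp M (Nat.mod q 59049)) (Nat.div q 59049))
          (grp V (Nat.mod (Nat.add (Nat.mul 4 q) 2) 177147))
          (Nat.div (Nat.add (Nat.mul 4 q) 2) 177147) 0 0 0 0)
        (fun _ _ =>
          cmp3 (grp V q) (fld (grp M (Nat.mod q 59049)) (Nat.div q 59049))
            (grp V (Nat.mod (Nat.add (Nat.mul 4 q) 2) 177147))
            (Nat.div (Nat.add (Nat.mul 4 q) 2) 177147)
            (grp M (Nat.mod (Nat.add (Nat.mul 2 (Nat.div q 3)) 1) 59049))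
            (Nat.div (Nat.add (Nat.mul 2 (Nat.div q 3)) 1) 59049) 1418410 2) r)
      (Nat.mod q 3))
    true (Nat.ble 177147 q)

/-- check all of `[lo, lo + 2 ^ k)` -/
noncomputable def allUpto (f : ℕ → Bool) (k : ℕ) : ℕ → Bool :=
  Nat.rec (motive := fun _ => ℕ → Bool) (fun lo => f lo)
    (fun k ih lo => Bool.rec false (ih (Nat.add lo (Nat.pow 2 k))) (ih lo)) k

theorem allUpto_spec (f : ℕ → Bool) (k lo : ℕ) (h : allUpto f k lo = true) :
    ∀ t, lo ≤ t → t < lo + 2 ^ k → f t = true := by
  induction k generalizing lo with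
  | zero =>
    intro t h1 h2
    have : t = lo := by simp at h2; omega
    rw [this]; exact h
  | succ k ih =>
    have h' : (Bool.rec false (allUpto f k (lo + 2 ^ k)) (allUpto f k lo) : Bool) = true := h
    cases h3 : allUpto f k lo with
    | false => rw [h3] at h'; exact absurd h' (by simp)
    | true =>
      rw [h3] at h'
      intro t h1 h2
      rw [pow_succ] at h2
      rcases Nat.lt_or_ge t (lo + 2 ^ k) with h4 | h4
      · exact ih lo h3 t h1 h4
      · exact ih _ h' t h4 (by omega)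

theorem cmp_spec {g mq h c K d b j j' : ℕ} (hh : cmp g mq h c K d b j j' = true) :
    1 ≤ fld g j ∧ mq ≤ fld g j ∧
      1000000 * fld g j ≤ 302679 * fld h ((c + j) % 3) + b * fld K ((d + j') % 3) := by
  unfold cmp at hh
  cases h1 : Nat.ble 1 (fld g j) with
  | false => rw [h1] at hh; exact absurd hh (by simp)
  | true =>
    rw [h1] at hh
    cases h2 : Nat.ble mq (fld g j) with
    | false => rw [h2] at hh; exact absurd hh (by simp)
    | true =>
      rw [h2] at hh
      exact ⟨Nat.le_of_ble_eq_true h1, Nat.le_of_ble_eq_true h2, Nat.le_of_ble_eq_true hh⟩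

theorem cmp3_spec {g mq h c K d b e : ℕ} (hh : cmp3 g mq h c K d b e = true) :
    ∀ j < 3, 1 ≤ fld g j ∧ mq ≤ fld g j ∧
      1000000 * fld g j ≤ 302679 * fld h ((c + j) % 3) + b * fld K ((d + j * e) % 3) := by
  unfold cmp3 at hh
  cases h0 : cmp g mq h c K d b 0 0 with
  | false => rw [h0] at hh; exact absurd hh (by simp)
  | true =>
    rw [h0] at hh
    cases h1 : cmp g mq h c K d b 1 e with
    | false => rw [h1] at hh; exact absurd hh (by simp)
    | true =>
      rw [h1] at hh
      have h2 : cmp g mq h c K d b 2 (2 * e) = true := hh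
      intro j hj
      interval_cases j
      · rw [Nat.zero_mul]; exact cmp_spec h0
      · rw [Nat.one_mul]; exact cmp_spec h1
      · exact cmp_spec h2

theorem ent_eq (T : Tr) (n t q j : ℕ) (h1 : t % n = q) (h2 : t / n = j) :
    ent T n t = fld (grp T q) j := by
  unfold ent
  rw [h1, h2]

theorem red (x n j : ℕ) (hn : 0 < n) : (x + j * n) % (n * 3) % n = x % n ∧
    (x + j * n) % (n * 3) / n = (x / n + j) % 3 := by
  rw [Nat.mod_mul_right_mod, Nat.mod_mul_right_div_self, Nat.add_mul_mod_self_right,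
    Nat.add_mul_div_right _ _ hn]
  exact ⟨rfl, rfl⟩

theorem ar1 (q j : ℕ) :
    ((4 * (q + j * 177147) + 2) % 531441) % 177147 = (4 * q + 2) % 177147 ∧
    ((4 * (q + j * 177147) + 2) % 531441) / 177147 = ((4 * q + 2) / 177147 + j) % 3 := by
  have h := red (4 * q + 2) 177147 (4 * j) (by norm_num)
  have e : 4 * (q + j * 177147) + 2 = 4 * q + 2 + 4 * j * 177147 := by ring
  rw [e]
  refine ⟨h.1, h.2.trans ?_⟩
  omega

theorem ar2 (u j : ℕ) :
    ((4 * (u + j * 59049)) % 177147) % 59049 = (4 * u) % 59049 ∧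
    ((4 * (u + j * 59049)) % 177147) / 59049 = ((4 * u) / 59049 + j * 1) % 3 := by
  have h := red (4 * u) 59049 (4 * j) (by norm_num)
  have e : 4 * (u + j * 59049) = 4 * u + 4 * j * 59049 := by ring
  rw [e]
  refine ⟨h.1, h.2.trans ?_⟩
  omega

theorem ar3 (u j : ℕ) :
    ((2 * (u + j * 59049) + 1) % 177147) % 59049 = (2 * u + 1) % 59049 ∧
    ((2 * (u + j * 59049) + 1) % 177147) / 59049 =
      ((2 * u + 1) / 59049 + j * 2) % 3 := by
  have h := red (2 * u + 1) 59049 (2 * j) (by norm_num)
  have e : 2 * (u + j * 59049) + 1 = 2 * u + 1 + 2 * j * 59049 := by ring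
  rw [e]
  refine ⟨h.1, h.2.trans ?_⟩
  omega

theorem chk_spec {V M : Tr} {q : ℕ} (h : chk V M q = true) (hq : q < 177147) :
    ∀ j < 3, 1 ≤ ent V 177147 (q + j * 177147) ∧ ent M 59049 q ≤ ent V 177147 (q + j * 177147) ∧
      1000000 * ent V 177147 (q + j * 177147) ≤
        302679 * ent V 177147 ((4 * (q + j * 177147) + 2) % 531441) +
        term (ent M 59049) 1418410 780356 ((q + j * 177147) / 3) ((q + j * 177147) % 3) := by
  have h0 : Nat.ble 177147 q = false := by
    rw [Bool.eq_false_iff]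
    intro h
    have := Nat.le_of_ble_eq_true h
    omega
  unfold chk at h
  rw [h0] at h
  intro j hj
  have eV : ent V 177147 (q + j * 177147) = fld (grp V q) j :=
    ent_eq _ _ _ _ _ (by omega) (by omega)
  have eM : ent M 59049 q = fld (grp M (Nat.mod q 59049)) (Nat.div q 59049) := rfl
  have eH : ent V 177147 ((4 * (q + j * 177147) + 2) % 531441) =
      fld (grp V ((4 * q + 2) % 177147)) (((4 * q + 2) / 177147 + j) % 3) :=
    ent_eq _ _ _ _ _ (ar1 q j).1 (ar1 q j).2
  rw [eV, eM, eH]
  have hr : q % 3 = 0 ∨ q % 3 = 1 ∨ q % 3 = 2 := by omega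
  rcases hr with hr | hr | hr
  · have hr' : Nat.mod q 3 = 0 := hr
    rw [hr'] at h
    have h2 := cmp3_spec h j hj
    have e3 : (q + j * 177147) % 3 = 0 := by omega
    have e5 : (q + j * 177147) / 3 = q / 3 + j * 59049 := by omega
    have e4 : ent M 59049 ((4 * ((q + j * 177147) / 3)) % 177147) =
        fld (grp M ((4 * (q / 3)) % 59049)) (((4 * (q / 3)) / 59049 + j * 1) % 3) :=
      by
      rw [e5]
      exact ent_eq _ _ _ _ _ (ar2 _ _).1 (ar2 _ _).2
    rw [term, if_pos e3, e4]
    exact h2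
  · have hr' : Nat.mod q 3 = 1 := hr
    rw [hr'] at h
    have h2 := cmp3_spec (b := 0) h j hj
    have e3 : (q + j * 177147) % 3 = 1 := by omega
    rw [term, if_neg (by omega), if_pos e3]
    rw [Nat.zero_mul] at h2
    exact h2
  · have hr' : Nat.mod q 3 = 2 := hr
    rw [hr'] at h
    have h2 := cmp3_spec h j hj
    have e3 : (q + j * 177147) % 3 = 2 := by omega
    have e5 : (q + j * 177147) / 3 = q / 3 + j * 59049 := by omega
    have e4 : ent M 59049 ((2 * ((q + j * 177147) / 3) + 1) % 177147) =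
        fld (grp M ((2 * (q / 3) + 1) % 59049)) (((2 * (q / 3) + 1) / 59049 + j * 2) % 3) :=
      by
      rw [e5]
      exact ent_eq _ _ _ _ _ (ar3 _ _).1 (ar3 _ _).2
    rw [term, if_neg (by omega), if_neg (by omega), e4]
    exact h2

theorem ent_le (T : Tr) (n t : ℕ) : ent T n t ≤ 65535 := by
  have h : ent T n t < 65536 := Nat.mod_lt _ (by norm_num)
  omega

end Pool.Agent.Helper894.Three
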