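import Pool.Agent.Helper894.Three.Tree
import Pool.Agent.Helper894.Three.Check

set_option autoImplicit false

namespace Pool.Agent.Helper894.Three

open Filter

theorem root_le {x y : ℝ} {p q : ℕ} (hq : q ≠ 0) (hx : 0 ≤ x) (hy : 0 < y)
    (h : x ^ q * y ^ p ≤ 1) : x * y ^ ((p : ℝ) / q) ≤ 1 := by
  have h1 : (x * y ^ ((p : ℝ) / q)) ^ q ≤ 1 := by
    rw [mul_pow, ← Real.rpow_natCast (y ^ ((p : ℝ) / q)) q, ← Real.rpow_mul hy.le,
      div_mul_cancel₀ _ (by exact_mod_cast hq), Real.rpow_natCast]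
    exact h
  exact (pow_le_one_iff_of_nonneg (by positivity) hq).1 h1

theorem scale {x y κ c s : ℝ} (hx : 0 < x) (hy : 0 < y) (hκ : 0 < κ) (hs : 0 ≤ s)
    (hyx : y ≤ κ * x) (hc : c * κ ^ s ≤ 1) : c * x ^ (-s) ≤ y ^ (-s) := by
  have h1 : (κ * x) ^ (-s) ≤ y ^ (-s) :=
    Real.rpow_le_rpow_of_nonpos hy hyx (by linarith)
  refine le_trans ?_ h1
  rw [Real.mul_rpow hκ.le hx.le]
  apply mul_le_mul_of_nonneg_right _ (by positivity)
  rw [Real.rpow_neg hκ.le, ← one_div, le_div_iff₀ (by positivity)]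
  exact hc

/-- residue of an integer as a natural number -/
def idx (N : ℕ) (t : ℤ) : ℕ := (t % (N : ℤ)).toNat

theorem idx_cast {N : ℕ} (hN : 0 < N) (t : ℤ) : (idx N t : ℤ) = t % (N : ℤ) := by
  unfold idx
  exact Int.toNat_of_nonneg (Int.emod_nonneg _ (by omega))

theorem idx_lt {N : ℕ} (hN : 0 < N) (t : ℤ) : idx N t < N := by
  have h1 := idx_cast hN t
  have h2 := Int.emod_lt_of_pos t (show (0 : ℤ) < N by omega)
  omega

/-- the certified data -/
structure Cert (v L : ℕ → ℕ) : Prop where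
  pos : ∀ t < 531441, 1 ≤ v t
  bound : ∀ t, v t ≤ 65535
  lift : ∀ t < 531441, L (t % 177147) ≤ v t
  ineq : ∀ t < 531441, 1000000 * v t ≤ 302679 * v ((4 * t + 2) % 531441) +
    term L 1418410 780356 (t / 3) (t % 3)

noncomputable def S : ℝ := (25 : ℕ) / (29 : ℕ)

theorem S_pos : 0 < S := by unfold S; norm_num

/-- the weight function -/
noncomputable def wf (v : ℕ → ℕ) (n : ℤ) : ℝ :=
  (v (idx 531441 ((n - 2) / 3)) : ℝ) * |(n : ℝ)| ^ (-S)

theorem wf_val (v : ℕ → ℕ) (t : ℤ) :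
    wf v (3 * t + 2) = (v (idx 531441 t) : ℝ) * |((3 * t + 2 : ℤ) : ℝ)| ^ (-S) := by
  unfold wf
  rw [show (3 * t + 2 - 2) / 3 = t by omega]

theorem c_a : (0.302679 : ℝ) * 4 ^ S ≤ 1 := by
  unfold S
  apply root_le (by norm_num) (by norm_num) (by norm_num)
  norm_num

theorem c_b (e : ℕ) (b : ℝ) (hb : b = 1.418410 ∧ e = 0 ∨ b = 0.780356 ∧ e = 1) :
    b * (2 ^ e * (2 / 3) * (1 + 1 / 2000000)) ^ S ≤ 1 := by
  unfold S
  rcases hb with ⟨rfl, rfl⟩ | ⟨rfl, rfl⟩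
  all_goals
    apply root_le (by norm_num) (by norm_num) (by norm_num)
    norm_num

theorem second_child {v L : ℕ → ℕ} (hc : Cert v L) (t : ℤ) (hA : 1000000 ≤ |3 * t + 2|)
    (e : ℕ) (b : ℕ) (hb : (b : ℝ) / 1000000 * (2 ^ e * (2 / 3) * (1 + 1 / 2000000)) ^ S ≤ 1)
    (t2 : ℤ) (ht2 : 2 ^ e * (2 * t + 1) = 3 * t2 + 2) (q : ℕ)
    (hq : (idx 531441 t2) % 177147 = q)
    (hterm : 1000000 * v (idx 531441 t) ≤ 302679 * v (idx 531441 (4 * t + 2)) + b * L q) :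
    wf v (3 * t + 2) ≤ wf v (4 * (3 * t + 2)) + wf v (2 ^ e * (2 * t + 1)) := by
  have hn0 : (0 : ℝ) < |((3 * t + 2 : ℤ) : ℝ)| := by
    rw [← Int.cast_abs]
    exact_mod_cast (by omega : (0 : ℤ) < |3 * t + 2|)
  have hL : L q ≤ v (idx 531441 t2) := by
    rw [← hq]
    exact hc.lift _ (idx_lt (by norm_num) _)
  have h1 : (1000000 : ℝ) * v (idx 531441 t) ≤ 302679 * v (idx 531441 (4 * t + 2)) +
      b * v (idx 531441 t2) := by
    have : 1000000 * v (idx 531441 t) ≤ 302679 * v (idx 531441 (4 * t + 2)) +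
        b * v (idx 531441 t2) := hterm.trans (by gcongr)
    exact_mod_cast this
  rw [show (4 : ℤ) * (3 * t + 2) = 3 * (4 * t + 2) + 2 by ring, ht2, wf_val, wf_val, wf_val]
  have hc1 : (0.302679 : ℝ) * |((3 * t + 2 : ℤ) : ℝ)| ^ (-S) ≤
      |((3 * (4 * t + 2) + 2 : ℤ) : ℝ)| ^ (-S) := by
    apply scale hn0 _ (by norm_num : (0 : ℝ) < 4) S_pos.le _ c_a
    · rw [show ((3 * (4 * t + 2) + 2 : ℤ) : ℝ) = 4 * ((3 * t + 2 : ℤ) : ℝ) by push_cast; ring,
        abs_mul]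
      positivity
    · rw [show ((3 * (4 * t + 2) + 2 : ℤ) : ℝ) = 4 * ((3 * t + 2 : ℤ) : ℝ) by push_cast; ring,
        abs_mul, abs_of_pos (by norm_num : (0 : ℝ) < 4)]
  have hc2 : (b : ℝ) / 1000000 * |((3 * t + 2 : ℤ) : ℝ)| ^ (-S) ≤
      |((3 * t2 + 2 : ℤ) : ℝ)| ^ (-S) := by
    apply scale hn0 _ (by positivity) S_pos.le _ hb
    · rw [← Int.cast_abs]
      have : 3 * t2 + 2 ≠ 0 := by omega
      exact_mod_cast abs_pos.2 this
    · rw [← ht2, ← Int.cast_abs, ← Int.cast_abs, abs_mul,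
        abs_of_pos (by positivity : (0 : ℤ) < 2 ^ e)]
      have h3 : 3 * |2 * t + 1| ≤ 2 * |3 * t + 2| + 1 := by
        have h4 : |3 * (2 * t + 1)| = |2 * (3 * t + 2) - 1| := by congr 1; ring
        have h5 : |3 * (2 * t + 1)| = 3 * |2 * t + 1| := by rw [abs_mul]; rfl
        have h6 : |2 * (3 * t + 2)| = 2 * |3 * t + 2| := by rw [abs_mul]; rfl
        have h7 : |2 * (3 * t + 2) - 1| ≤ |2 * (3 * t + 2)| + |(1 : ℤ)| := abs_sub _ _
        rw [abs_one] at h7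
        omega
      have h3' : (3 : ℝ) * |2 * t + 1| ≤ 2 * |3 * t + 2| + 1 := by exact_mod_cast h3
      have hA' : (1000000 : ℝ) ≤ |3 * t + 2| := by exact_mod_cast hA
      have h8 : ((|2 * t + 1| : ℤ) : ℝ) ≤ (2 / 3) * (1 + 1 / 2000000) * (|3 * t + 2| : ℤ) := by
        push_cast at h3' hA' ⊢
        linarith
      have h9 : (0 : ℝ) ≤ 2 ^ e := by positivity
      push_cast at h8 ⊢
      calc (2 : ℝ) ^ e * |2 * (t : ℝ) + 1| ≤
          2 ^ e * ((2 / 3) * (1 + 1 / 2000000) * |3 * (t : ℝ) + 2|) :=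
            mul_le_mul_of_nonneg_left h8 h9
        _ = _ := by ring
  have hx : (0 : ℝ) ≤ |((3 * t + 2 : ℤ) : ℝ)| ^ (-S) := by positivity
  have h10 := mul_le_mul_of_nonneg_right h1 hx
  have h11 := mul_le_mul_of_nonneg_left hc1
    (Nat.cast_nonneg (α := ℝ) (v (idx 531441 (4 * t + 2))))
  have h12 := mul_le_mul_of_nonneg_left hc2 (Nat.cast_nonneg (α := ℝ) (v (idx 531441 t2)))
  nlinarith

theorem hsub {v L : ℕ → ℕ} (hc : Cert v L) (t : ℤ) (hA : 1000000 ≤ |3 * t + 2|) :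
    wf v (3 * t + 2) ≤ wf v (4 * (3 * t + 2)) ∨
      ∃ e : ℕ, e ≤ 1 ∧ (2 ^ e * (2 * t + 1)) % 3 = 2 ∧
        wf v (3 * t + 2) ≤ wf v (4 * (3 * t + 2)) + wf v (2 ^ e * (2 * t + 1)) := by
  obtain ⟨t0, ht0⟩ : ∃ t0, t0 = idx 531441 t := ⟨_, rfl⟩
  have h0 : (t0 : ℤ) = t % 531441 := by rw [ht0]; exact idx_cast (by norm_num) t
  have hlt : t0 < 531441 := by rw [ht0]; exact idx_lt (by norm_num) t
  have hi := hc.ineq t0 hlt
  have e1 : (4 * t0 + 2) % 531441 = idx 531441 (4 * t + 2) := by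
    have h := idx_cast (N := 531441) (by norm_num) (4 * t + 2)
    push_cast at h
    omega
  rw [e1] at hi
  have hr : t0 % 3 = 0 ∨ t0 % 3 = 1 ∨ t0 % 3 = 2 := by omega
  rcases hr with hr | hr | hr
  · right
    obtain ⟨u, hu⟩ : ∃ u, t = 3 * u := ⟨t / 3, by omega⟩
    refine ⟨1, le_rfl, by omega, ?_⟩
    rw [hr, term, if_pos rfl] at hi
    have e2 : idx 531441 (4 * u) % 177147 = (4 * (t0 / 3)) % 177147 := by
      have h := idx_cast (N := 531441) (by norm_num) (4 * u)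
      push_cast at h
      omega
    apply second_child hc t hA 1 780356 _ (4 * u) (by rw [hu]; ring) _ e2
    · rw [← ht0]; exact hi
    · have := c_b 1 0.780356 (by norm_num)
      norm_num at this ⊢
      exact this
  · left
    rw [hr, term, if_neg (by norm_num), if_pos rfl] at hi
    have hi' : 1000000 * v t0 ≤ 302679 * v (idx 531441 (4 * t + 2)) := hi
    have hn0 : (0 : ℝ) < |((3 * t + 2 : ℤ) : ℝ)| := by
      rw [← Int.cast_abs]
      exact_mod_cast (by omega : (0 : ℤ) < |3 * t + 2|)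
    rw [show (4 : ℤ) * (3 * t + 2) = 3 * (4 * t + 2) + 2 by ring, wf_val, wf_val, ← ht0]
    have hc1 : (0.302679 : ℝ) * |((3 * t + 2 : ℤ) : ℝ)| ^ (-S) ≤
        |((3 * (4 * t + 2) + 2 : ℤ) : ℝ)| ^ (-S) := by
      apply scale hn0 _ (by norm_num : (0 : ℝ) < 4) S_pos.le _ c_a
      · rw [show ((3 * (4 * t + 2) + 2 : ℤ) : ℝ) = 4 * ((3 * t + 2 : ℤ) : ℝ) by
          push_cast; ring, abs_mul]
        positivity
      · rw [show ((3 * (4 * t + 2) + 2 : ℤ) : ℝ) = 4 * ((3 * t + 2 : ℤ) : ℝ) by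
          push_cast; ring, abs_mul, abs_of_pos (by norm_num : (0 : ℝ) < 4)]
    have h1 : (1000000 : ℝ) * v t0 ≤ 302679 * v (idx 531441 (4 * t + 2)) := by exact_mod_cast hi'
    have hx : (0 : ℝ) ≤ |((3 * t + 2 : ℤ) : ℝ)| ^ (-S) := by positivity
    have h10 := mul_le_mul_of_nonneg_right h1 hx
    have h11 := mul_le_mul_of_nonneg_left hc1
      (Nat.cast_nonneg (α := ℝ) (v (idx 531441 (4 * t + 2))))
    nlinarith
  · right
    obtain ⟨u, hu⟩ : ∃ u, t = 3 * u + 2 := ⟨t / 3, by omega⟩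
    refine ⟨0, by norm_num, by omega, ?_⟩
    rw [hr, term, if_neg (by norm_num), if_neg (by norm_num)] at hi
    have e2 : idx 531441 (2 * u + 1) % 177147 = (2 * (t0 / 3) + 1) % 177147 := by
      have h := idx_cast (N := 531441) (by norm_num) (2 * u + 1)
      push_cast at h
      omega
    apply second_child hc t hA 0 1418410 _ (2 * u + 1) (by rw [hu]; ring) _ e2
    · rw [← ht0]; exact hi
    · have := c_b 0 1.418410 (by norm_num)
      norm_num at this ⊢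
      exact this

/-- The growth bound. -/
theorem growth {v L : ℕ → ℕ} (hc : Cert v L) {a : ℤ} (ha : ¬ (3 : ℤ) ∣ a) :
    ∃ c : ℝ, 0 < c ∧ ∀ᶠ x : ℝ in atTop, c * x ^ S ≤ ((DX a x).ncard : ℝ) := by
  obtain ⟨r, hra, hr5, hrp, hrs⟩ := exists_root ha 1000000
  have hr0 : (1000000 : ℝ) ≤ |(r : ℝ)| := by
    have := hrs r (desc_self r)
    rw [← Int.cast_abs]
    exact_mod_cast this
  have hwr : 0 < wf v r := by
    unfold wf
    apply mul_pos
    · have := hc.pos _ (idx_lt (N := 531441) (by norm_num) ((r - 2) / 3))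
      exact_mod_cast (by omega : 0 < v (idx 531441 ((r - 2) / 3)))
    · apply Real.rpow_pos_of_pos
      linarith
  refine ⟨wf v r / 65535 * (4 : ℝ) ^ (-S), by positivity, ?_⟩
  filter_upwards [eventually_ge_atTop (4 * |(r : ℝ)|)] with x hx
  have hx0 : 0 < x := by linarith
  have hX0 : 0 < x / 4 := by positivity
  have hm := mass (wf v) (x / 4) (65535 * (x / 4) ^ (-S)) 1000000 (by positivity)
    (by
      intro n hn
      unfold wf
      have h1 : (v (idx 531441 ((n - 2) / 3)) : ℝ) ≤ 65535 := by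
        exact_mod_cast hc.bound _
      have h2 : |(n : ℝ)| ^ (-S) ≤ (x / 4) ^ (-S) :=
        Real.rpow_le_rpow_of_nonpos hX0 hn.le (by have := S_pos; linarith)
      exact mul_le_mul h1 h2 (by positivity) (by norm_num))
    (fun t ht => hsub hc t ht) _ r hr5 hrp hrs (by linarith) le_rfl
  have e16 : 4 * (x / 4) = x := by ring
  rw [e16] at hm
  have hsubset : (DX r x).ncard ≤ (DX a x).ncard := by
    apply Set.ncard_le_ncard _ (DX_finite _ _)
    rintro y ⟨h1, h2⟩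
    exact ⟨desc_trans h1 hra, h2⟩
  have hsubset' : ((DX r x).ncard : ℝ) ≤ (DX a x).ncard := by exact_mod_cast hsubset
  refine le_trans ?_ hsubset'
  rw [Real.div_rpow hx0.le (by norm_num), Real.rpow_neg hx0.le] at hm
  have hxs : 0 < x ^ S := by positivity
  have h16 : 0 < (4 : ℝ) ^ (-S) := by positivity
  have h3 : wf v r * (x ^ S * (4 : ℝ) ^ (-S)) ≤ 65535 * (DX r x).ncard := by
    calc wf v r * (x ^ S * (4 : ℝ) ^ (-S))
        ≤ (65535 * ((x ^ S)⁻¹ / (4 : ℝ) ^ (-S)) * (DX r x).ncard) *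
            (x ^ S * (4 : ℝ) ^ (-S)) := mul_le_mul_of_nonneg_right hm (by positivity)
      _ = 65535 * (DX r x).ncard * ((x ^ S)⁻¹ * x ^ S) * ((4 : ℝ) ^ (-S) / (4 : ℝ) ^ (-S)) := by
          ring
      _ = 65535 * (DX r x).ncard := by
          rw [inv_mul_cancel₀ hxs.ne', div_self h16.ne']; ring
  calc wf v r / 65535 * (4 : ℝ) ^ (-S) * x ^ S
      = wf v r * (x ^ S * (4 : ℝ) ^ (-S)) / 65535 := by ring
    _ ≤ 65535 * (DX r x).ncard / 65535 := by gcongr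
    _ = (DX r x).ncard := by ring

theorem growth_log {v L : ℕ → ℕ} (hc : Cert v L) {a : ℤ} (ha : ¬ (3 : ℤ) ∣ a) :
    ∀ᶠ x : ℝ in atTop, x ^ (0.862 : ℝ) ≤ ((DX a x).ncard : ℝ) := by
  obtain ⟨c, hc0, hev⟩ := growth hc ha
  have hd : (0 : ℝ) < S - 0.862 := by unfold S; norm_num
  have ht := tendsto_rpow_atTop hd
  filter_upwards [hev, ht.eventually_ge_atTop (1 / c), eventually_gt_atTop (0 : ℝ)] with x h1 h2 h3
  refine le_trans ?_ h1
  have h4 : x ^ S = x ^ (S - 0.862) * x ^ (0.862 : ℝ) := by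
    rw [← Real.rpow_add h3]; congr 1; ring
  rw [h4]
  have h5 : 1 ≤ c * x ^ (S - 0.862) := by
    rw [div_le_iff₀ hc0] at h2
    linarith
  have h6 : 0 ≤ x ^ (0.862 : ℝ) := by positivity
  calc x ^ (0.862 : ℝ) = 1 * x ^ (0.862 : ℝ) := by ring
    _ ≤ (c * x ^ (S - 0.862)) * x ^ (0.862 : ℝ) := mul_le_mul_of_nonneg_right h5 h6
    _ = _ := by ring

end Pool.Agent.Helper894.Three
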