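import Pool.Agent.Helper894.Three.Blk0
import Pool.Agent.Helper894.Three.Blk1
import Pool.Agent.Helper894.Three.Blk2
import Pool.Agent.Helper894.Three.Blk3
import Pool.Agent.Helper894.Three.Main

set_option autoImplicit false

namespace Pool.Agent.Helper894.Three

theorem chk_all (q : ℕ) (hq : q < 177147) : chk vt lt q = true := by
  rcases Nat.lt_or_ge (q / 2048) 22 with h0 | h0
  · exact allUpto_spec _ _ _ (blks0 (q / 2048 - 0) (by omega)) q (by omega) (by norm_num; omega)
  rcases Nat.lt_or_ge (q / 2048) 44 with h1 | h1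
  · exact allUpto_spec _ _ _ (blks1 (q / 2048 - 22) (by omega)) q (by omega) (by norm_num; omega)
  rcases Nat.lt_or_ge (q / 2048) 66 with h2 | h2
  · exact allUpto_spec _ _ _ (blks2 (q / 2048 - 44) (by omega)) q (by omega) (by norm_num; omega)
  rcases Nat.lt_or_ge (q / 2048) 88 with h3 | h3
  · exact allUpto_spec _ _ _ (blks3 (q / 2048 - 66) (by omega)) q (by omega) (by norm_num; omega)
  omega

theorem cert : Cert (ent vt 177147) (ent lt 59049) where
  pos t ht := by
    have h := chk_spec (chk_all (t % 177147) (Nat.mod_lt _ (by norm_num))) (Nat.mod_lt _ (by norm_num)) (t / 177147) (by omega)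
    rw [Nat.mod_add_div' t 177147] at h
    exact h.1
  bound t := ent_le vt _ t
  lift t ht := by
    have h := chk_spec (chk_all (t % 177147) (Nat.mod_lt _ (by norm_num))) (Nat.mod_lt _ (by norm_num)) (t / 177147) (by omega)
    rw [Nat.mod_add_div' t 177147] at h
    exact h.2.1
  ineq t ht := by
    have h := chk_spec (chk_all (t % 177147) (Nat.mod_lt _ (by norm_num))) (Nat.mod_lt _ (by norm_num)) (t / 177147) (by omega)
    rw [Nat.mod_add_div' t 177147] at h
    exact h.2.2

end Pool.Agent.Helper894.Three
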