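import Pool.Agent.Helper894.Three.Cert

set_option autoImplicit false

namespace Pool.Agent.Helper894.Three

open Filter

theorem main_all {a : ℤ} (ha : ¬ (3 : ℤ) ∣ a) :
    ∀ᶠ x : ℝ in atTop, x ^ (0.862 : ℝ) ≤ ((DX a x).ncard : ℝ) := growth_log cert ha

/-- positive integers stay positive, the others never become positive -/
theorem T_pos {m : ℤ} : 1 ≤ T m ↔ 1 ≤ m := by
  unfold T
  split_ifs <;> omega

theorem iter_pos {m : ℤ} (k : ℕ) : 1 ≤ T^[k] m ↔ 1 ≤ m := by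
  induction k generalizing m with
  | zero => simp
  | succ k ih => rw [Function.iterate_succ_apply, ih, T_pos]

theorem pos_of_desc_one {x : ℤ} (h : x ∈ Desc 1) : 1 ≤ x := by
  obtain ⟨k, hk⟩ := h
  rw [← iter_pos k, hk]

/-- the Collatz function -/
def C (m : ℕ) : ℕ := if m % 2 = 0 then m / 2 else 3 * m + 1

theorem reach (k n : ℕ) (h : T^[k] (n : ℤ) = 1) : ∃ l : ℕ, C^[l] n = 1 := by
  induction k generalizing n with
  | zero =>
    refine ⟨0, ?_⟩
    have : (n : ℤ) = 1 := h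
    exact_mod_cast this
  | succ k ih =>
    rw [Function.iterate_succ_apply] at h
    rcases Nat.even_or_odd' n with ⟨m, hm | hm⟩
    · have h1 : T (n : ℤ) = ((m : ℕ) : ℤ) := by
        unfold T
        rw [if_pos (by omega)]
        omega
      rw [h1] at h
      obtain ⟨l, hl⟩ := ih m h
      refine ⟨l + 1, ?_⟩
      rw [Function.iterate_succ_apply]
      have h2 : C n = m := by
        unfold C
        rw [if_pos (by omega)]
        omega
      rw [h2, hl]
    · have h1 : T (n : ℤ) = ((3 * m + 2 : ℕ) : ℤ) := by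
        unfold T
        rw [if_neg (by omega)]
        push_cast
        omega
      rw [h1] at h
      obtain ⟨l, hl⟩ := ih (3 * m + 2) h
      refine ⟨l + 1 + 1, ?_⟩
      rw [Function.iterate_succ_apply, Function.iterate_succ_apply]
      have h2 : C n = 2 * (3 * m + 2) := by
        unfold C
        rw [if_neg (by omega)]
        omega
      have h3 : C (2 * (3 * m + 2)) = 3 * m + 2 := by
        unfold C
        rw [if_pos (by omega)]
        omega
      rw [h2, h3, hl]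

theorem main_one : ∃ x₀ : ℝ, ∀ x : ℝ, x₀ ≤ x → x ^ (0.862 : ℝ) <
    (Nat.card {n : ℕ // 1 ≤ n ∧ (n : ℝ) < x ∧ ∃ k : ℕ, C^[k] n = 1} : ℝ) := by
  obtain ⟨c, hc0, hev⟩ := growth cert (a := 1) (by norm_num)
  have hd : (0 : ℝ) < S - 0.862 := by unfold S; norm_num
  have ht := tendsto_rpow_atTop hd
  have hhalf : Tendsto (fun x : ℝ => x / 2) atTop atTop := tendsto_id.atTop_div_const (by norm_num)
  have hall : ∀ᶠ x : ℝ in atTop, x ^ (0.862 : ℝ) <
      (Nat.card {n : ℕ // 1 ≤ n ∧ (n : ℝ) < x ∧ ∃ k : ℕ, C^[k] n = 1} : ℝ) := by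
    filter_upwards [hhalf.eventually hev, ht.eventually_gt_atTop ((2 : ℝ) ^ S / c),
      eventually_gt_atTop (0 : ℝ)] with x h1 h2 h3
    have hfin : {n : ℕ | 1 ≤ n ∧ (n : ℝ) < x ∧ ∃ k : ℕ, C^[k] n = 1}.Finite := by
      apply (Set.finite_Iic ⌊x⌋₊).subset
      rintro n ⟨-, hn, -⟩
      exact Nat.le_floor hn.le
    have hle : (DX 1 (x / 2)).ncard ≤
        Nat.card {n : ℕ // 1 ≤ n ∧ (n : ℝ) < x ∧ ∃ k : ℕ, C^[k] n = 1} := by
      have e : Nat.card {n : ℕ // 1 ≤ n ∧ (n : ℝ) < x ∧ ∃ k : ℕ, C^[k] n = 1} =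
          ((fun n : ℕ => (n : ℤ)) '' {n : ℕ | 1 ≤ n ∧ (n : ℝ) < x ∧ ∃ k : ℕ, C^[k] n = 1}).ncard := by
        rw [Set.ncard_image_of_injective _ Nat.cast_injective]
        rfl
      rw [e]
      apply Set.ncard_le_ncard _ (hfin.image _)
      rintro n ⟨hn, hx⟩
      have hpos := pos_of_desc_one hn
      obtain ⟨m, rfl⟩ := Int.eq_ofNat_of_zero_le (by omega : (0 : ℤ) ≤ n)
      obtain ⟨k, hk⟩ := hn
      refine ⟨m, ⟨by omega, ?_, reach k m hk⟩, rfl⟩
      have h4 := le_abs_self (((m : ℤ) : ℝ))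
      have h5 : ((m : ℤ) : ℝ) = (m : ℝ) := by norm_cast
      rw [h5] at h4 hx
      linarith
    have hleR : ((DX 1 (x / 2)).ncard : ℝ) ≤
        (Nat.card {n : ℕ // 1 ≤ n ∧ (n : ℝ) < x ∧ ∃ k : ℕ, C^[k] n = 1} : ℝ) := by
      exact_mod_cast hle
    refine lt_of_lt_of_le ?_ (h1.trans hleR)
    rw [Real.div_rpow h3.le (by norm_num)]
    have h4 : x ^ S = x ^ (S - 0.862) * x ^ (0.862 : ℝ) := by
      rw [← Real.rpow_add h3]; congr 1; ring
    have h6 : 0 < x ^ (0.862 : ℝ) := by positivity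
    have h7 : (0 : ℝ) < 2 ^ S := by positivity
    have h5 : 1 < c * x ^ (S - 0.862) / 2 ^ S := by
      rw [lt_div_iff₀ h7, one_mul]
      rw [div_lt_iff₀ hc0] at h2
      linarith
    calc x ^ (0.862 : ℝ) = 1 * x ^ (0.862 : ℝ) := by ring
      _ < (c * x ^ (S - 0.862) / 2 ^ S) * x ^ (0.862 : ℝ) := mul_lt_mul_of_pos_right h5 h6
      _ = c * (x ^ S / 2 ^ S) := by rw [h4]; ring
  obtain ⟨x₀, hx₀⟩ := eventually_atTop.1 hall
  exact ⟨x₀, hx₀⟩

end Pool.Agent.Helper894.Three
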